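import Pool.Agent.Helper4.LS.Main

/-!
# Conjecture D needs only the even cohomology below the middle degree; complete intersections in
# varieties with small Chow groups

Let `Y` be a smooth projective variety. We show that conjecture D (numerical equivalence is
homological equivalence, in all codimensions) holds for `Y` as soon as the cohomology `H^(2j)(Y)` in
the **even degrees below the middle**, `2 j < dim Y`, is spanned by the images, under algebraic
correspondences, of the cohomology `H^(2i)(T)` of varieties `T` with the conjecture D for the cycles
of dimension `i`. Nothing is assumed on the odd cohomology, on the middle cohomology and on the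
diagonal of `Y`. This is in characteristic zero (Hodge-Riemann relations in the middle degree); over
any field, and for any Weil cohomology, the result is the conjecture D for `Y` outside the middle
codimension, so in all codimensions if `dim Y` is odd.

In characteristic zero the conjecture is known for all varieties in codimension `≤ 2` and in
dimension `≤ 1`, and for varieties of dimension `≤ 4` (Lieberman), and in the case where `CH_i(X)` is
supported in dimension `≤ i + 4` for `i ≤ s` and `dim X ≤ 2 s + 6` (starting files, `SmallChowGroups`
in MP_0c8446_ag, by decompositions of the diagonal `DiagonalDecomposes W X 4 s`). Here the following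
new cases are obtained.

* Let `X` be a smooth projective variety of **any dimension** such that `CH_i(X)` is supported in
  dimension `≤ i + 4` for `i = 0, …, s`, and `f : Y → X` with surjective restriction in the even
  degrees below `dim Y`. If `dim Y ≤ 2 s + 6` then D holds for `Y`. For `s = 0`: D holds for **all
  smooth complete intersections of ample divisors of dimension five or six in all rationally
  connected manifolds** (for instance Fano manifolds) of any dimension, and more generally in all
  manifolds with a rationally connected fibration over a base of dimension `≤ 4`. These `Y` may be
  Calabi-Yau or of general type, so that their Chow groups are not small. The same for zero loci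
  of sections of ample vector bundles (Sommese), and for cyclic coverings of these `X`, `dim X ≤ 6`,
  branched along smooth ample divisors.
* If D holds for `X` then it holds for all smooth complete intersections of ample divisors in `X`
  and all cyclic coverings as above, and so on. For example, for all families of hypersurfaces (or
  complete intersections) over arbitrary varieties of dimension `≤ 4`, of any dimension, that are
  complete intersections of ample divisors in projective bundles, and for the cyclic coverings of
  these. (The conjecture B is not known for the base.)
* The fivefolds and sixfolds `Y` such that `H^4(Y)` has coniveau `≥ 1`, or is spanned by images of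
  the cohomology of fourfolds under correspondences (the case `j = 2`, `Known W 2 1`).
* Since only even degrees are used, the restriction may fail to be surjective in degree `dim Y - 1`
  if `dim Y` is even: triple coverings of projective spaces of even dimension (Lazarsfeld), smooth
  subvarieties of codimension two and even dimension in simple abelian varieties (Sommese), where the
  odd cohomology in degree `dim Y - 1` is not controlled, and the conjecture B is not known.

Over any field (for example in characteristic `p`, where the conjecture is open already for curves on
threefolds), the theorem of Matsusaka gives the same with the bounds `dim T ≤ i + 1`, `i = 0`,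
`CH_i(X)` supported in dimension `≤ i + 2` for `i ≤ s`, and `dim Y ≤ 2 s + 4`: for instance D for all
smooth threefolds that are complete intersections of ample divisors in a variety `X` of any dimension
with `CH_0(X)` supported on a surface.

The proof. A numerically trivial cycle `z` of dimension `j` on `Y` is mapped by the transpose of a
correspondence `Γ` on `T × Y` to a numerically trivial cycle of dimension `i` on `T`, which is
homologically trivial, so that `z` is orthogonal to `Γ_* H^(2i)(T)`. If these span `H^(2j)(Y)`, the
class of `z` is zero by Poincare duality. By hard Lefschetz, the conjecture D for the cycles of
dimension `j ≤ n / 2` implies the one for the cycles of codimension `j`. In the middle degree, a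
numerically trivial cycle `z` is now primitive, and `z · z = 0`, so `z = 0` by the Hodge-Riemann
relations. Spans of images are stable under correspondences, in particular under restriction, and if
the diagonal of `T` decomposes with parameter `s`, then `H^(2i)(T)` is spanned by images of such kind
for `i ≤ s + 2`.
-/

set_option autoImplicit false

open CategoryTheory AlgebraicGeometry

universe u v

namespace Pool.Agent.Results.MP_5f0950_ag.CompleteIntersections

open Pool.Agent.H914 VarClass Obj WeilCohomology Pool.Agent.H447 Pool.Agent.Helper4.LS
open Pool.Agent.Y133.Hdg (HodgeStr HodgeIn)

/-- **Conjecture D and the even cohomology below the middle degree.** Let `W` be a Weil cohomology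
theory.

First part, with Hodge structures (characteristic zero). Conjecture D holds for `Y` if and only if
the cohomology in the even degrees below the middle is spanned by images, under algebraic
correspondences, of the cohomology of varieties `T` in degrees `2 i` such that conjecture D holds for
the cycles of dimension `i` on `T`. Given the theorem of Lefschetz on classes of type `(1, 1)`,
conjecture D holds for `Y` if these degrees are spanned by images of `H^(2i)(T)` where D is known for
`T`, or `i ≤ 1`, or `dim T ≤ i + 2`, or the diagonal of `T` decomposes with `e = 4` and `s ≥ i - 2`. In
particular, let `f : Y → X` be a morphism such that the restriction is surjective in the even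
degrees below the dimension of `Y`. If D holds for `X`, or if the diagonal of `X` decomposes with
`e = 4` and `dim Y ≤ 2 s + 6`, then D holds for `Y`.

Second part, over any field and for any Weil cohomology, if hard Lefschetz holds for some divisor on
`Y`: the same for conjecture D on `Y` outside the middle codimension, where the theorem of Matsusaka
replaces the one of Lefschetz, and the bounds are `i ≤ 0`, `dim T ≤ i + 1`, `e = 2`, `s ≥ i - 1` and
`dim Y ≤ 2 s + 4`. -/
theorem result {k : Type u} [Field k] {𝒱 : VarClass k} {ops : CycleOps 𝒱}
    (W : WeilCohomology.{u, v} ops) :
    (∀ [Algebra W.K ℝ] (Ψ : HodgeStr W) (Y : 𝒱.Obj),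
      (SpannedBelow W (fun T i => HomEqNumIn W T (T.dim - i)) Y ↔ HomEqNum W Y) ∧
      ((∀ T : 𝒱.Obj, HodgeIn Ψ T 1) →
        (SpannedBelow W (Known W 2 1) Y → HomEqNum W Y) ∧
        ∀ (X : 𝒱.Obj) (f : Y ⟶ X), EvenLefschetz W f →
          (HomEqNum W X ∨ ∃ s, DiagonalDecomposes W X 4 s ∧ Y.dim ≤ 2 * s + 6) →
          HomEqNum W Y)) ∧
    (∀ (Y : 𝒱.Obj) (E : Y.Cycles), Y.IsCyc 1 E → HardLefschetz W Y E →
      (SpannedBelow W (fun T i => HomEqNumIn W T (T.dim - i)) Y ↔
        ∀ q, 2 * q ≠ Y.dim → HomEqNumIn W Y q) ∧
      ((∀ T : 𝒱.Obj, ∀ i ≤ 1, HomEqNumIn W T i) →
        (SpannedBelow W (Known W 1 0) Y → ∀ q, 2 * q ≠ Y.dim → HomEqNumIn W Y q) ∧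
        ∀ (X : 𝒱.Obj) (f : Y ⟶ X), EvenLefschetz W f →
          (HomEqNum W X ∨ ∃ s, DiagonalDecomposes W X 2 s ∧ Y.dim ≤ 2 * s + 4) →
          ∀ q, 2 * q ≠ Y.dim → HomEqNumIn W Y q)) :=
  main W

end Pool.Agent.Results.MP_5f0950_ag.CompleteIntersections
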