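import Pool.Agent.Helper3.GU.Lst

/-!
# The standard conjecture D and graph hypersurfaces

Let `F` be a prime field and `k` an algebraic extension of `F` (for instance an algebraic closure), and fix
a Weil cohomology theory for smooth projective varieties over `k` (one of the classical ones). For a
smooth projective scheme `Y` over `F` let `A^n(Y)` be the group of the cycles of codimension `n` on `Y_k`
with rational coefficients modulo homological equivalence, and `B^n(Y)` the group of these cycles modulo
numerical equivalence. These are additive functors of the Chow motive of `Y_k`, with a surjection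
`A^n(Y) → B^n(Y)`.

For a separated scheme `X` of finite type over `F` let `W(X)` be the weight complex of `X_k` (Gillet,
Soulé, Bondarko; a complex of Chow motives over `k` with rational coefficients, for the cohomology with
compact supports; `W(X) = h(X_k)` for smooth projective `X`), and put `A^{n,i}(X) = H^i(A^n(W(X)))` and
`B^{n,i}(X) = H^i(B^n(W(X)))`. `BijAll C X` says that the maps `A^{n,i}(X) → B^{n,i}(X)` are isomorphisms
for all `n` and `i`. For smooth projective `Y` the groups for `i ≠ 0` are zero, and `BijAll C Y` says that
homological and numerical equivalence coincide on `Y_k` (`Describes.classes`). Every smooth projective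
variety over `k` is a union of connected components of `Y_k` for a smooth projective scheme `Y` over `F`.

For a simple graph `G` with the vertices `0, …, n` let `K_G` be the Kirchhoff polynomial: the determinant of
the Laplacian matrix (in the variables of the edges) without the row and the column of the vertex `0`, and
`Ψ_G` the first Symanzik polynomial, the determinant of the expanded Laplacian matrix. `G` runs through
the graphs with at most three neighbours of each vertex (`Subcubic`).

**Theorem.** (1) For each smooth projective scheme `Y` over `F` there is a **finite** list `L` of such graphs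
which depends only on `Y` (not on `k`, or on the Weil cohomology theory), such that: if the maps
`A^{n,i}(X) → B^{n,i}(X)` are isomorphisms, for all `n` and `i`, for the complements `X` of the finitely many
hypersurfaces `K_G = 0`, `G` in `L`, in the affine spaces (or for these hypersurfaces, or for their
complements in the tori, or for the complements of `Ψ_G = 0`, `G` in `L`, in the tori), then numerically
trivial cycles on `Y_k` are homologically trivial. Here it is not used that smooth projective schemes
generate.

(2) Numerically trivial cycles are homologically trivial on all smooth projective varieties over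
`k` if and only if the maps `A^{n,i}(X) → B^{n,i}(X)` are isomorphisms, for all `n` and `i`, for each one
of the following classes of schemes `X` over `F`: all separated schemes of finite type; the complements of
`K_G = 0` in the affine spaces; the hypersurfaces `K_G = 0`; the complements of `K_G = 0` in the tori; the
complements of `Ψ_G = 0` in the tori.
-/

set_option autoImplicit false

open CategoryTheory AlgebraicGeometry Pool.Agent.Y116.UV Pool.Agent.Z125.UN Pool.Agent.Q193.LT
  Pool.Agent.Helper3.GU

universe w w'

namespace Pool.Agent.Results.MP_5f0950_ag.GraphHypersurfaces

/-- Cycles with rational coefficients, cycle classes and the degrees of the products of cycles. -/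
structure CycleData (F : Type) [Field F] where
  /-- the cycles of codimension `r` on `X_k`, with rational coefficients -/
  Z : ℕ → Sch F → ModuleCat.{w'} ℚ
  /-- the cohomology group `H^{2r}(X_k)` -/
  H : ℕ → Sch F → ModuleCat.{w'} ℚ
  /-- the cycle class map -/
  cl : ∀ r X, Z r X ⟶ H r X
  /-- the numbers `deg (a · b)` for cycles `b` of complementary dimension on a component of `X_k` -/
  deg : ∀ {r : ℕ} (s : ℕ) {X : Sch F}, Z r X → Z s X → ℚ

/-- The standard conjecture D for `X_k`: all numerically trivial cycles are homologically trivial. -/
def StandardD {F : Type} [Field F] (D : CycleData.{w'} F) (X : Sch F) : Prop :=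
  ∀ (r : ℕ) (a : D.Z r X), (∀ (s : ℕ) (b : D.Z s X), D.deg s a b = 0) → (D.cl r X).hom a = 0

/-- The maps from cycles modulo homological equivalence to cycles modulo numerical equivalence, and the
known standard properties of weight complexes. -/
structure Describes {F : Type} [Field F] (D : CycleData.{w'} F) (C : PairData.{w} F (ℤ × ℤ) ℚ) :
    Prop where
  classes : ∀ Y : Sch F, SmoothProj Y → (StandardD D Y ↔ BijAll C Y)
  weight : IsWeightPair C
  generated : WeightGen C
  point : BijAll C (aff F F)

/-- **The standard conjecture D and graph hypersurfaces.** See the explanations above. -/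
theorem result {F : Type} [Field F] [PerfectField F] (hF : Frac F) :
    (∀ Y : Sch F, SmoothProj Y → ∃ L : List (Σ n : ℕ, SimpleGraph (Fin (n + 1))),
      (∀ G ∈ L, Subcubic G.2) ∧
        ∀ {D : CycleData.{w'} F} {C : PairData.{w} F (ℤ × ℤ) ℚ} (_ : Describes D C),
          ((∀ G ∈ L, BijAll C (graphS F G.2)) ∨ (∀ G ∈ L, BijAll C (graphH F G.2)) ∨
            (∀ G ∈ L, BijAll C (graphT F G.2)) ∨ ∀ G ∈ L, BijAll C (feynmanT F G.2)) →
          StandardD D Y) ∧
    ∀ {D : CycleData.{w'} F} {C : PairData.{w} F (ℤ × ℤ) ℚ} (_ : Describes D C),
      List.TFAE [∀ Y : Sch F, SmoothProj Y → StandardD D Y,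
        ∀ X : Sch F, FT True X → BijAll C X,
        ∀ (n : ℕ) (G : SimpleGraph (Fin (n + 1))), Subcubic G → BijAll C (graphS F G),
        ∀ (n : ℕ) (G : SimpleGraph (Fin (n + 1))), Subcubic G → BijAll C (graphH F G),
        ∀ (n : ℕ) (G : SimpleGraph (Fin (n + 1))), Subcubic G → BijAll C (graphT F G),
        ∀ (n : ℕ) (G : SimpleGraph (Fin (n + 1))), Subcubic G → BijAll C (feynmanT F G)] := by
  constructor
  · intro Y hY
    obtain ⟨L, hL, h⟩ := finite_list (sep := True) (presents_frac hF) Y hY.ft
    exact ⟨L, hL, fun {D C} hC h' => (hC.classes Y hY).mpr
      (h (BijAll C) (mot_of_bnd (bnd_pair hC.weight hC.point)) h')⟩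
  · intro D C h
    exact cons_congr (cubic_pair h.generated h.weight h.point hF)
      ⟨fun h1 Y hY => (h.classes Y hY).1 (h1 Y hY), fun h1 Y hY => (h.classes Y hY).2 (h1 Y hY)⟩

end Pool.Agent.Results.MP_5f0950_ag.GraphHypersurfaces
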