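import Pool.Agent.Helper59.IP.Lst

/-!
# The standard conjecture D and independence polynomials of graphs

Let `F` be a prime field and `k` an algebraic extension of `F` (for instance an algebraic closure), and fix
a Weil cohomology theory for smooth projective varieties over `k` (one of the classical ones). For a
smooth projective scheme `Y` over `F` let `A^n(Y)` be the group of the cycles of codimension `n` on `Y_k`
with rational coefficients modulo homological equivalence, and `B^n(Y)` the group of these cycles modulo
numerical equivalence. These are additive functors of the Chow motive of `Y_k`, with a surjection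
`A^n(Y) → B^n(Y)`.

For a separated scheme `X` of finite type over `F` let `W(X)` be the weight complex of `X_k` (Gillet,
Soulé, Bondarko; a complex of Chow motives over `k` with rational coefficients, for the cohomology with
compact supports; `W(X) = h(X_k)` for smooth projective `X`), and put `A^{n,i}(X) = H^i(A^n(W(X)))` and
`B^{n,i}(X) = H^i(B^n(W(X)))`. `BijAll C X` says that the maps `A^{n,i}(X) → B^{n,i}(X)` are isomorphisms
for all `n` and `i`. For smooth projective `Y` the groups for `i ≠ 0` are zero, and `BijAll C Y` says that
homological and numerical equivalence coincide on `Y_k` (`Describes.classes`). Every smooth projective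
variety over `k` is a union of connected components of `Y_k` for a smooth projective scheme `Y` over `F`.

For a graph `G` with the vertices `V` let `I_G = ∑_s ∏_{v ∈ s} x_v`, the sum over the independent sets `s`
(sets of pairwise non-adjacent vertices) of `G`: the multivariate independence polynomial. It is the
partition function of the lattice gas on `G` with hard core interaction and activities `x_v`. We consider
graphs whose vertices are covered by three cliques (`ThreeCliques`), so that an independent set has at
most three elements and `I_G` is a cubic polynomial: the sum of `∏_{v ∈ s} x_v` over all cliques `s` of the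
3-colourable complementary graph.

**Theorem.** (1) For each smooth projective scheme `Y` over `F` there is a **finite** list `L` of such graphs
which depends only on `Y` (not on `k`, or on the Weil cohomology theory), such that: if the maps
`A^{n,i}(X) → B^{n,i}(X)` are isomorphisms, for all `n` and `i`, for the complements `X` of the finitely many
hypersurfaces `I_G = 0`, `G` in `L`, in the affine spaces (or for these cubic hypersurfaces, or for their
complements in the tori, or for their intersections with the tori), then numerically trivial cycles on `Y_k`
are homologically trivial. Here it is not used that smooth projective schemes generate.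

(2) Numerically trivial cycles are homologically trivial on all smooth projective varieties over
`k` if and only if the maps `A^{n,i}(X) → B^{n,i}(X)` are isomorphisms, for all `n` and `i`, for each one
of the following classes of schemes `X` over `F`: all separated schemes of finite type; the complements of
`I_G = 0` in the affine spaces, for all graphs covered by three cliques; the cubic hypersurfaces `I_G = 0`;
the complements of `I_G = 0` in the tori; the intersections of `I_G = 0` with the tori.

The idea of the proof: let `Γ` be covered by two cliques and `A_1, …, A_m` sets of vertices. Add to `Γ` a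
vertex `w` adjacent to `Γ`, a clique of vertices `v_r` adjacent to `w` and to the vertices of `Γ` outside of
`A_r`, and a vertex `u` adjacent to the `v_r`. The graph is covered by three cliques and has the polynomial
`(1 + u)(w + I_Γ) + ∑_r v_r I_{A_r}`. Cutting along `w + I_Γ = 0`, passing from the invertible values of
`∑ v_r I_{A_r}` to the value one, and using Jouanolou's device one arrives at the common zeros of the
polynomials `I_{A_r}` of the induced subgraphs, and these describe the trilinear hypersurfaces `T = 1`,
which are universal by a theorem of the library.
-/

set_option autoImplicit false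

open CategoryTheory AlgebraicGeometry Pool.Agent.Y116.UV Pool.Agent.Z125.UN Pool.Agent.Q193.LT
  Pool.Agent.Helper3.GU Pool.Agent.Helper59.IP

universe w w'

namespace Pool.Agent.Results.MP_5f0950_ag.IndependencePolynomials

/-- Cycles with rational coefficients, cycle classes and the degrees of the products of cycles. -/
structure CycleData (F : Type) [Field F] where
  /-- the cycles of codimension `r` on `X_k`, with rational coefficients -/
  Z : ℕ → Sch F → ModuleCat.{w'} ℚ
  /-- the cohomology group `H^{2r}(X_k)` -/
  H : ℕ → Sch F → ModuleCat.{w'} ℚ
  /-- the cycle class map -/
  cl : ∀ r X, Z r X ⟶ H r X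
  /-- the numbers `deg (a · b)` for cycles `b` of complementary dimension on a component of `X_k` -/
  deg : ∀ {r : ℕ} (s : ℕ) {X : Sch F}, Z r X → Z s X → ℚ

/-- The standard conjecture D for `X_k`: all numerically trivial cycles are homologically trivial. -/
def StandardD {F : Type} [Field F] (D : CycleData.{w'} F) (X : Sch F) : Prop :=
  ∀ (r : ℕ) (a : D.Z r X), (∀ (s : ℕ) (b : D.Z s X), D.deg s a b = 0) → (D.cl r X).hom a = 0

/-- The maps from cycles modulo homological equivalence to cycles modulo numerical equivalence, and the
known standard properties of weight complexes. -/
structure Describes {F : Type} [Field F] (D : CycleData.{w'} F) (C : PairData.{w} F (ℤ × ℤ) ℚ) :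
    Prop where
  classes : ∀ Y : Sch F, SmoothProj Y → (StandardD D Y ↔ BijAll C Y)
  weight : IsWeightPair C
  generated : WeightGen C
  point : BijAll C (aff F F)

/-- **The standard conjecture D and independence polynomials.** See the explanations above. -/
theorem result {F : Type} [Field F] [PerfectField F] (hF : Frac F) :
    (∀ Y : Sch F, SmoothProj Y → ∃ L : List (Σ n : ℕ, SimpleGraph (Fin n)),
      (∀ G ∈ L, ThreeCliques G.2) ∧
        ∀ {D : CycleData.{w'} F} {C : PairData.{w} F (ℤ × ℤ) ℚ} (_ : Describes D C),
          ((∀ G ∈ L, BijAll C (indS F G.2)) ∨ (∀ G ∈ L, BijAll C (indH F G.2)) ∨
            (∀ G ∈ L, BijAll C (indT F G.2)) ∨ ∀ G ∈ L, BijAll C (indHT F G.2)) →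
          StandardD D Y) ∧
    ∀ {D : CycleData.{w'} F} {C : PairData.{w} F (ℤ × ℤ) ℚ} (_ : Describes D C),
      List.TFAE [∀ Y : Sch F, SmoothProj Y → StandardD D Y,
        ∀ X : Sch F, FT True X → BijAll C X,
        ∀ (n : ℕ) (G : SimpleGraph (Fin n)), ThreeCliques G → BijAll C (indS F G),
        ∀ (n : ℕ) (G : SimpleGraph (Fin n)), ThreeCliques G → BijAll C (indH F G),
        ∀ (n : ℕ) (G : SimpleGraph (Fin n)), ThreeCliques G → BijAll C (indT F G),
        ∀ (n : ℕ) (G : SimpleGraph (Fin n)), ThreeCliques G → BijAll C (indHT F G)] := by
  constructor
  · intro Y hY
    obtain ⟨L, hL, h⟩ := finite_list (sep := True) (presents_frac hF) Y hY.ft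
    exact ⟨L, hL, fun {D C} hC h' => (hC.classes Y hY).mpr
      (h (BijAll C) (mot_of_bnd (bnd_pair hC.weight hC.point)) h')⟩
  · intro D C h
    exact ind_cons_congr (ind_pair h.generated h.weight h.point hF)
      ⟨fun h1 Y hY => (h.classes Y hY).1 (h1 Y hY), fun h1 Y hY => (h.classes Y hY).2 (h1 Y hY)⟩

end Pool.Agent.Results.MP_5f0950_ag.IndependencePolynomials
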