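import Pool.Agent.Helper85.OD.Gen

/-!
# The standard conjecture D for products of powers of varieties with a degeneration whose monodromy
# has exactly one nontrivial Jordan block, with other varieties

Let `W` be a Weil cohomology theory with an algebraically closed coefficient field on a class of
smooth proper varieties over a field `k` of any characteristic, and `G` a class of varieties, closed
under products, with an action of a group `Γ` with the formal properties of a Galois action (the
example: varieties over a subfield `F` of the algebraically closed field `k` and the Galois group of
`F`; `χ` is the inverse of the cyclotomic character).

Let `X_i` be polarized varieties in `G` of even dimension which satisfy the standard conjectures of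
Lefschetz and of Hodge type, whose transcendental cohomology `T_i` (the orthogonal complement of all
algebraic classes) is in the middle degree, irreducible under all subgroups of finite index, and of
rank `3` or at least `5`. Suppose that for every `i` there are an element `g_i` of `Γ` (for instance
an element of the inertia group at a place of bad reduction) and a number `m_i` such that

* `g_i` acts on `T_i` by a unipotent operator with exactly ONE JORDAN BLOCK OF SIZE `m_i > 1`, and ANY
  NUMBER OF BLOCKS OF SIZE ONE (`BlockOn`; as the pairing on `T_i` is symmetric, `m_i` is odd);
* (`GeneralOn`) nothing if `rank T_i ≥ m_i + 2`. If there is no block of size one then `m_i = 3`, or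
  `m_i ≠ 7` and the eigenvalues of some element of `Γ` on `T_i` are not a geometric progression; if
  there is exactly one block of size one then `m_i` is congruent to `1` modulo `4`;
* the cohomology algebra of `Z` is generated by stable subspaces `U` such that `(g_i - 1) ^ (m_i - 2)`
  is zero on `U`, or `U` carries an invariant symmetric (alternating) form and its dimension is smaller
  than `rank T_i` (`rank T_i - 1`).

Suppose moreover that the `T_i` are not isomorphic to each other up to a twist, and that for two
indices `i ≠ j` with rank `8` we have `(g_i - 1) ^ (m_i - 2) = 0` on `T_j` or
`(g_j - 1) ^ (m_j - 2) = 0` on `T_i`. Nothing else is assumed on `Z`: neither the Tate conjecture nor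
any of the standard conjectures.

**Theorem.** Numerical and homological equivalence coincide on the product of `Z` with powers of
different `X_i`, with less than `rank T_i` factors `X_i`, if and only if they coincide on `Z`.

The case `m_i = 3` (degenerations of type III of K3 surfaces, or local monodromy with the Jordan blocks
`3, 1, …, 1`) is the result `MaximalDegenerations` of the starting library, where the condition on `Z`
is `(g_i - 1) ^ 2 = 0` with `rank (g_i - 1) ^ 2 + 2 < rank T_i`. The new cases are all sizes `m_i ≥ 5`.
Example: `X` of even dimension `n ≥ 4` all of whose Hodge numbers in the middle degree of `T` are one,
except for the one in the middle, which is arbitrary (for example Calabi-Yau fourfolds with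
`h ^ (3, 1) = 1`), over a number field, with a place where the monodromy has the largest possible
unipotency: the Jordan blocks are `n + 1, 1, …, 1`. By the monodromy theorem the condition
`(g_i - 1) ^ (m_i - 2) = 0` is satisfied, if `g_i` is replaced by a power, on the cohomology of all
varieties of dimension `≤ m_i - 3`, and on the first cohomology of abelian varieties if `m_i ≥ 5`. So
`Z` can be ANY product of abelian varieties and of varieties of dimension `≤ m_i - 3` (for `m_i = 5`: of
any curves and surfaces), WITHOUT ANY CONDITION ON THEIR REDUCTION. In positive characteristic the
standard conjecture of Hodge type is not known, and in all characteristics `Z` is not assumed to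
satisfy the standard conjecture of Lefschetz type.

The proof. Let `𝔤` be the Lie algebra of all families of operators on the `T_j`, on the generators of
the cohomology of `Z` and on its cohomology which are compatible with all multilinear maps that are
equivariant under some subgroup of finite index. It contains the logarithm of `g_i`. The image of `𝔤`
in the skew operators of `T_i` is everything: this is the theorem on Lie algebras from
`MP_0fca13_ag.OneJordanBlock` (there is no classification; the components of an operator under the
standard triple of the logarithm are computed). Moreover a member of `𝔤` acts on `T_i` by a lowest
weight vector of weight `- (2 m_i - 4)`; its iterated commutator with the logarithm of length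
`2 m_i - 5` is zero on every representation where `(g_i - 1) ^ (m_i - 2) = 0` but not on `T_i`. So by
the argument of Goursat all skew operators of `T_i` are components of members of `𝔤` which are zero
on the other `T_j` and on `Z`. By the first main theorem of invariant theory all algebraic classes on
the products come from the classes of the pairings and from `Z`, and positivity on the powers of `X_i`
gives the result.
-/

set_option autoImplicit false

open CategoryTheory AlgebraicGeometry

universe u

namespace Pool.Agent.Results.MP_5f0950_ag.OneJordanBlock

open Pool.Agent.H914 Pool.Agent.H281R3.HT Pool.Agent.TH125.Gal Pool.Agent.Q71.TM.P
  Pool.Agent.Q71.TS Pool.Agent.Helper85.OD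

/-- **The conjecture D for products with powers of varieties with a degeneration whose monodromy has
exactly one nontrivial Jordan block.** -/
theorem result {k : Type u} [Field k] {𝒱 : VarClass k} {ops : CycleOps 𝒱}
    {W : WeilCohomology.{u, 0} ops} (hK : IsAlgClosed W.K) {Γ : Type} [Group Γ] {T : Tw W.K Γ}
    {G : Set (GVar W Γ)} {ι : Type} {p : ι → Place Γ} {r : ι → ℕ} {X : ι → GVar W Γ}
    {D : ∀ i, (X i).X.Cycles} {Z : GVar W Γ} (h : Helper85.OD.PolFamily T G p r X D Z)
    (E : Z.X.Cycles) {L : List (ι × ℕ)} (hL : SmallExps r L) :
    HomEqNum W (polTower ops (fun i => ⟨(X i).X, D i⟩) ⟨Z.X, E⟩ L).X ↔ HomEqNum W Z.X :=
  Helper85.OD.PolFamily.homEqNum h E hL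

end Pool.Agent.Results.MP_5f0950_ag.OneJordanBlock
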